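import Pool.Agent.Y942.LY.Plane
import Pool.Agent.W303.Ly.NoCodeG

/-! The Bruck-Ryser theorem for the words of an affine plane. -/

set_option autoImplicit false

namespace Pool.Agent.Y942.LY

open Finset Pool.Agent.H177R2.SD

theorem aff : ∀ (n : ℕ) (A : Fin n → Fin n → ℚ) (b : Fin n → ℚ),
    ∃ y : Fin n → ℚ, ∀ i, (∑ j, A i j * y j + b i) ^ 2 = (y i) ^ 2
  | 0, _, _ => ⟨fun _ => 0, fun i => i.elim0⟩
  | n + 1, A, b => by
    obtain ⟨ε, hε, hA⟩ : ∃ ε : ℚ, ε ^ 2 = 1 ∧ ε - A 0 0 ≠ 0 := by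
      by_cases h : A 0 0 = 1
      · exact ⟨-1, by norm_num, by rw [h]; norm_num⟩
      · exact ⟨1, by norm_num, fun h1 => h (by linarith)⟩
    set c := ε - A 0 0 with hc
    obtain ⟨y, hy⟩ := aff n (fun i j => A i.succ j.succ + A i.succ 0 * A 0 j.succ / c)
      (fun i => b i.succ + A i.succ 0 * b 0 / c)
    set y0 : ℚ := (∑ j : Fin n, A 0 j.succ * y j + b 0) / c with hy0
    have h0 : ∑ j : Fin n, A 0 j.succ * y j + b 0 = c * y0 := by
      rw [hy0]; field_simp
    refine ⟨Fin.cons y0 y, fun i => ?_⟩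
    refine Fin.cases ?_ (fun i => ?_) i
    · rw [Fin.sum_univ_succ]
      simp only [Fin.cons_zero, Fin.cons_succ]
      have : A 0 0 * y0 + ∑ j : Fin n, A 0 j.succ * y j + b 0 = ε * y0 := by
        rw [add_assoc, h0, hc]; ring
      rw [this, mul_pow, hε, one_mul]
    · rw [Fin.sum_univ_succ]
      simp only [Fin.cons_zero, Fin.cons_succ]
      rw [← hy i]
      congr 1
      have h1 : ∑ j : Fin n, (A i.succ j.succ + A i.succ 0 * A 0 j.succ / c) * y j =
          ∑ j : Fin n, A i.succ j.succ * y j + A i.succ 0 * (∑ j : Fin n, A 0 j.succ * y j) / c := by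
        rw [Finset.mul_sum, Finset.sum_div, ← Finset.sum_add_distrib]
        refine Finset.sum_congr rfl fun j _ => ?_
        field_simp
      rw [h1, hy0]
      field_simp
      ring

theorem lin (n : ℕ) (Λ : Fin n → ((Fin (n + 1) → ℚ) →ₗ[ℚ] ℚ)) :
    ∃ y : Fin (n + 1) → ℚ, y (Fin.last n) = 1 ∧ ∀ i : Fin n, (Λ i y) ^ 2 = (y i.castSucc) ^ 2 := by
  obtain ⟨y, hy⟩ := aff n (fun i j => Λ i (Pi.single j.castSucc 1))
    (fun i => Λ i (Pi.single (Fin.last n) 1))
  refine ⟨Fin.snoc y 1, Fin.snoc_last _ _, fun i => ?_⟩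
  have h1 : ∀ z : Fin (n + 1) → ℚ, Λ i z = ∑ j, z j * Λ i (Pi.single j 1) := by
    intro z
    rw [LinearMap.pi_apply_eq_sum_univ (Λ i) z]
    refine Finset.sum_congr rfl fun j _ => ?_
    rw [smul_eq_mul]
    congr 2
    funext k
    by_cases hjk : j = k
    · subst hjk; simp
    · simp [hjk, Ne.symm hjk]
  rw [h1, Fin.sum_univ_castSucc]
  simp only [Fin.snoc_castSucc, Fin.snoc_last, one_mul]
  rw [← hy i]
  congr 2
  exact Finset.sum_congr rfl fun j _ => mul_comm _ _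

/-- Euler's matrix -/
def eu (a b c d : ℚ) : Fin 4 → Fin 4 → ℚ :=
  ![![a, -b, -c, -d], ![b, a, -d, c], ![c, d, a, -b], ![d, -c, b, a]]

theorem euler4 (a b c d : ℚ) (w : Fin 4 → ℚ) :
    ∑ s, (∑ r, eu a b c d s r * w r) ^ 2 = (a ^ 2 + b ^ 2 + c ^ 2 + d ^ 2) * ∑ r, (w r) ^ 2 := by
  simp only [Fin.sum_univ_four, eu]
  simp
  ring

/-- the quadratic identity of a projective plane -/
theorem quad {v r : ℕ} (N : Fin v → Fin v → ℚ) (S2 : ∀ x y, x ≠ y → ∑ i, N x i * N y i = 1)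
    (S3 : ∀ x, ∑ i, N x i * N x i = r) (z : Fin v → ℚ) :
    ∑ i, (∑ x, N x i * z x) ^ 2 = ((r : ℚ) - 1) * ∑ x, (z x) ^ 2 + (∑ x, z x) ^ 2 := by
  have h1 : ∀ i, (∑ x, N x i * z x) ^ 2 = ∑ x, ∑ y, (z x * z y) * (N x i * N y i) := by
    intro i
    rw [pow_two, Finset.sum_mul_sum]
    refine Finset.sum_congr rfl fun x _ => Finset.sum_congr rfl fun y _ => ?_
    ring
  simp only [h1]
  rw [Finset.sum_comm]
  have h2 : ∀ x, ∑ i, ∑ y, (z x * z y) * (N x i * N y i) =
      ((r : ℚ) - 1) * (z x) ^ 2 + z x * ∑ y, z y := by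
    intro x
    rw [Finset.sum_comm]
    have h3 : ∀ y, ∑ i, (z x * z y) * (N x i * N y i) =
        z x * z y + if x = y then ((r : ℚ) - 1) * (z x) ^ 2 else 0 := by
      intro y
      rw [← Finset.mul_sum]
      by_cases hxy : x = y
      · subst hxy
        rw [S3, if_pos rfl]
        ring
      · rw [S2 x y hxy, if_neg hxy]
        ring
    simp only [h3, Finset.sum_add_distrib, Finset.sum_ite_eq, Finset.mem_univ, if_true]
    rw [← Finset.mul_sum]
    ring
  simp only [h2, Finset.sum_add_distrib]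
  rw [← Finset.mul_sum, ← Finset.sum_mul]
  ring

/-- a number which is a sum of two rational squares, in the form used here -/
theorem two_sq {m : ℕ} (hm : m ≠ 0) {z w : ℚ} (h : (m : ℚ) * z ^ 2 = 1 + w ^ 2) :
    ∃ a b : ℕ, m = a ^ 2 + b ^ 2 := by
  obtain ⟨c, hc, x, y, hxy⟩ : ∃ c : ℕ, c ≠ 0 ∧ ∃ x y : ℕ, m * c ^ 2 = x ^ 2 + y ^ 2 := by
    have hz : z ≠ 0 := by
      rintro rfl
      have : 0 ≤ w ^ 2 := sq_nonneg w
      norm_num at h
      linarith
    refine ⟨z.num.natAbs * w.den, ?_, z.den * w.den, z.den * w.num.natAbs, ?_⟩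
    · exact mul_ne_zero (by simpa using hz) w.den_ne_zero
    · have h1 : z = z.num / z.den := (Rat.num_div_den z).symm
      have h2 : w = w.num / w.den := (Rat.num_div_den w).symm
      have hzd : (z.den : ℚ) ≠ 0 := by exact_mod_cast z.den_ne_zero
      have hwd : (w.den : ℚ) ≠ 0 := by exact_mod_cast w.den_ne_zero
      rw [h1, h2] at h
      field_simp at h
      have h3 : ((m * (z.num.natAbs * w.den) ^ 2 : ℕ) : ℤ) =
          (((z.den * w.den) ^ 2 + (z.den * w.num.natAbs) ^ 2 : ℕ) : ℤ) := by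
        push_cast
        have h4 : ((|z.num| : ℤ)) ^ 2 = z.num ^ 2 := sq_abs _
        have h5 : ((|w.num| : ℤ)) ^ 2 = w.num ^ 2 := sq_abs _
        rw [mul_pow, mul_pow, mul_pow, h4, h5]
        have h6 : (m : ℤ) * (z.num ^ 2 * (w.den : ℤ) ^ 2) =
          (z.den : ℤ) ^ 2 * (w.den : ℤ) ^ 2 + (z.den : ℤ) ^ 2 * w.num ^ 2 := by
          have : ((m : ℚ) * ((z.num : ℚ) ^ 2 * (w.den : ℚ) ^ 2)) =
            (z.den : ℚ) ^ 2 * (w.den : ℚ) ^ 2 + (z.den : ℚ) ^ 2 * (w.num : ℚ) ^ 2 := by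
            linear_combination h
          exact_mod_cast this
        exact h6
      exact_mod_cast h3
  rw [Nat.eq_sq_add_sq_iff]
  intro q hq hq3
  have hqp : q.Prime := Nat.prime_of_mem_primeFactors hq
  haveI : Fact q.Prime := ⟨hqp⟩
  have h1 := (Nat.eq_sq_add_sq_iff (n := m * c ^ 2)).1 ⟨x, y, hxy⟩ (q := q) (by
    rw [Nat.mem_primeFactors] at hq ⊢
    exact ⟨hq.1, hq.2.1.mul_right _, mul_ne_zero hm (pow_ne_zero 2 hc)⟩) hq3
  rw [padicValNat.mul hm (pow_ne_zero 2 hc), padicValNat.pow] at h1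
  rw [Nat.even_add] at h1
  exact h1.2 ⟨padicValNat q c, by ring⟩

theorem br_full {v m : ℕ} (hd : IsSymmetricDesign v (m + 1) 1) (hv : v % 4 = 3) (hm : 1 ≤ m) :
    ∃ a b : ℕ, m = a ^ 2 + b ^ 2 := by
  classical
  obtain ⟨hkv', r, Bl, hcard, hr, hl⟩ := hd
  set N : Fin v → Fin v → ℚ := fun x i => if x ∈ Bl i then 1 else 0 with hN
  have hN' : ∀ x i, N x i = if x ∈ Bl i then 1 else 0 := fun x i => rfl
  have S1 : ∀ x, ∑ i, N x i = r := by
    intro x
    simp only [hN', Finset.sum_boole, hr]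
  have S2 : ∀ x y, x ≠ y → ∑ i, N x i * N y i = 1 := by
    intro x y hxy
    have : ∀ i, N x i * N y i = if x ∈ Bl i ∧ y ∈ Bl i then 1 else 0 := by
      intro i
      rw [hN', hN']
      split_ifs <;> simp_all
    simp only [this, Finset.sum_boole, hl x y hxy]
    norm_num
  have S3 : ∀ x, ∑ i, N x i * N x i = r := by
    intro x
    have : ∀ i, N x i * N x i = N x i := by
      intro i
      rw [hN']
      split_ifs <;> simp
    simp only [this, S1]
  have S4 : ∀ i, ∑ x, N x i = ((m + 1 : ℕ) : ℚ) := by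
    intro i
    simp only [hN', Finset.sum_boole]
    rw [← hcard i]
    congr 2
    ext x
    simp
  have hrk : (r : ℚ) = ((m + 1 : ℕ) : ℚ) := by
    have e1 : ∑ x, ∑ i, N x i = (v : ℚ) * r := by
      simp [S1]
    have e2 : ∑ x, ∑ i, N x i = (v : ℚ) * ((m + 1 : ℕ) : ℚ) := by
      have e3 : ∑ x, ∑ i, N x i = ∑ i, ∑ x, N x i := Finset.sum_comm
      rw [e3]
      simp only [S4, Finset.sum_const, Finset.card_univ, Fintype.card_fin, nsmul_eq_mul]
    have hv : (v : ℚ) ≠ 0 := by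
      have : 0 < v := by omega
      exact_mod_cast this.ne'
    exact mul_left_cancel₀ hv (e1.symm.trans e2)
  obtain ⟨a, b, c, d, habcd⟩ := Nat.sum_four_squares m
  obtain ⟨t, ht⟩ : ∃ t, v + 1 = t * 4 := ⟨(v + 1) / 4, by omega⟩
  let e : Fin (v + 1) ≃ Fin t × Fin 4 := (finCongr ht).trans finProdFinEquiv.symm
  have hm0 : (m : ℚ) ≠ 0 := by
    have : m ≠ 0 := by omega
    exact_mod_cast this
  -- the substitution
  let zz : (Fin (v + 1) → ℚ) → Fin (v + 1) → ℚ := fun y i =>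
    (∑ r, eu a b c d (e i).2 r * y (e.symm ((e i).1, r))) / m
  have hzz : ∀ y, (m : ℚ) * ∑ i, (zz y i) ^ 2 = ∑ i, (y i) ^ 2 := by
    intro y
    have h1 : ∑ i, (zz y i) ^ 2 = ∑ p : Fin t × Fin 4,
        ((∑ r, eu a b c d p.2 r * y (e.symm (p.1, r))) / m) ^ 2 :=
      Equiv.sum_comp e (fun p => ((∑ r, eu a b c d p.2 r * y (e.symm (p.1, r))) / m) ^ 2)
    have h2 : ∑ i, (y i) ^ 2 = ∑ p : Fin t × Fin 4, (y (e.symm p)) ^ 2 :=
      (Equiv.sum_comp e.symm (fun i => (y i) ^ 2)).symm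
    rw [h1, h2, Fintype.sum_prod_type, Fintype.sum_prod_type, Finset.mul_sum]
    refine Finset.sum_congr rfl fun p _ => ?_
    have h3 := euler4 a b c d (fun r => y (e.symm (p, r)))
    simp only [div_pow]
    rw [← Finset.sum_div, h3]
    have h4 : ((a : ℚ) ^ 2 + b ^ 2 + c ^ 2 + d ^ 2) = m := by exact_mod_cast habcd
    rw [h4]
    field_simp
  let Λ : Fin v → ((Fin (v + 1) → ℚ) →ₗ[ℚ] ℚ) := fun i =>
    { toFun := fun y => ∑ x : Fin v, N x i * zz y x.castSucc
      map_add' := by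
        intro y y'
        rw [← Finset.sum_add_distrib]
        refine Finset.sum_congr rfl fun x _ => ?_
        simp only [zz, Pi.add_apply, mul_add, Finset.sum_add_distrib, add_div]
      map_smul' := by
        intro s y
        simp only [RingHom.id_apply, smul_eq_mul]
        rw [Finset.mul_sum]
        refine Finset.sum_congr rfl fun x _ => ?_
        have : zz (s • y) x.castSucc = s * zz y x.castSucc := by
          simp only [zz, Pi.smul_apply, smul_eq_mul]
          rw [← mul_div_assoc, Finset.mul_sum]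
          congr 1
          exact Finset.sum_congr rfl fun r _ => by ring
        rw [this]
        ring }
  obtain ⟨y, hy1, hy2⟩ := lin v Λ
  have h1 := quad N S2 S3 (fun x => zz y x.castSucc)
  have h2 : ∑ i : Fin v, (y i.castSucc) ^ 2 = ∑ i, (∑ x, N x i * zz y x.castSucc) ^ 2 :=
    Finset.sum_congr rfl fun i _ => (hy2 i).symm
  have h3 := hzz y
  rw [Fin.sum_univ_castSucc, Fin.sum_univ_castSucc, hy1, h2, h1, hrk] at h3
  refine two_sq (m := m) (by omega) (z := zz y (Fin.last v)) (w := ∑ x : Fin v, zz y x.castSucc) ?_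
  push_cast at h3
  linear_combination h3

/-- **Bruck-Ryser** -/
theorem br_cc {m : ℕ} (hm : 2 ≤ m) (h4 : m % 4 = 1 ∨ m % 4 = 2) (h : CC m) :
    ∃ a b : ℕ, m = a ^ 2 + b ^ 2 := by
  classical
  obtain ⟨G, hG⟩ := h
  have hC : Cod G := hG
  have hd : IsSymmetricDesign (m * m + (m + 1)) (m + 1) 1 := by
    refine Pool.Agent.W303.Ly.design hm (fun P k => G P ((finSuccEquiv m).symm k)) ?_ ?_
    · intro k v
      have h1 := hC.line_equiv (by omega) ((finSuccEquiv m).symm k) v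
      rw [Set.ncard_eq_toFinset_card'] at h1
      refine Eq.trans ?_ h1
      congr 1
      ext P
      simp
    · intro P Q hPQ
      obtain ⟨k, hk, hku⟩ := hG P Q hPQ
      rw [Finset.card_eq_one]
      refine ⟨finSuccEquiv m k, ?_⟩
      ext j
      rw [mem_filter, mem_singleton]
      constructor
      · rintro ⟨-, hj⟩
        rw [← hku _ hj, Equiv.apply_symm_apply]
      · rintro rfl
        refine ⟨mem_univ _, ?_⟩
        rw [Equiv.symm_apply_apply]
        exact hk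
  refine br_full hd ?_ (by omega)
  obtain ⟨q, hq⟩ : ∃ q, m = 4 * q + m % 4 := ⟨m / 4, by omega⟩
  rcases h4 with h4 | h4
  · rw [h4] at hq
    have : m * m + (m + 1) = 4 * (4 * q * q + 3 * q) + 3 := by rw [hq]; ring
    omega
  · rw [h4] at hq
    have : m * m + (m + 1) = 4 * (4 * q * q + 5 * q + 1) + 3 := by rw [hq]; ring
    omega

end Pool.Agent.Y942.LY
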