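import Pool.Agent.Y942.LY.Rep
import Pool.Agent.W213.LyG.Assembly
import Pool.Agent.W303.Ly.NoCodeG

/-! From weak representations of `L(m,0)` to affine planes; fields. -/

set_option autoImplicit false

namespace Pool.Agent.Y942.LY

open Pool.Agent.W213.Ly.Gen Pool.Agent.W213.LyG

theorem exUnique_transfer {m : ℕ} (p : Option (Fin m) → Prop) (h : ∃! k, p k) :
    ∃! k : Fin (m + 1), p (finSuccEquiv m k) := by
  obtain ⟨k, hk, hku⟩ := h
  refine ⟨(finSuccEquiv m).symm k, ?_, fun j hj => ?_⟩
  · show p _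
    rw [Equiv.apply_symm_apply]
    exact hk
  · rw [Equiv.eq_symm_apply]
    exact hku _ hj

theorem cc_of_code {m : ℕ} (hm : 2 ≤ m) {f : Fin m × Fin m → Fin m → Fin m}
    (h : Pool.Agent.W303.Ly.Hy f) : CC m := by
  obtain ⟨g, hg1, -⟩ := Pool.Agent.W303.Ly.seventh hm h
  refine ⟨fun P k => (finSuccEquiv m k).elim (g P) (f P), fun P Q hPQ => ?_⟩
  refine exUnique_transfer (fun k => k.elim (g P) (f P) = k.elim (g Q) (f Q)) ?_
  by_cases hR : Pool.Agent.W303.Ly.Rl f P Q
  · refine ⟨none, (hg1 P Q).2 hR, ?_⟩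
    rintro (_ | k) hk
    · rfl
    · rcases hR with hR | hR
      · exact absurd hR hPQ
      · exact absurd hk (hR k)
  · have : ∃ k, f P k = f Q k := by
      by_contra hc
      push Not at hc
      exact hR (Or.inr hc)
    obtain ⟨k, hk⟩ := this
    refine ⟨some k, hk, ?_⟩
    rintro (_ | l) hl
    · exact absurd ((hg1 P Q).1 hl) hR
    · rw [h P Q hPQ l k hl hk]

theorem cc_of_wrel {m : ℕ} (hm : 8 ≤ m) {D : Type} {R : Set (At m) → D → D → Prop}
    (hW : WRel m D R) {x y : D} (hxy : R {some 0} x y) : CC m := by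
  by_contra hcon
  have hG : GR m D R := ⟨hW, hm⟩
  let α : Fin (m + 1) := ⟨1, by omega⟩
  let β : Fin (m + 1) := ⟨2, by omega⟩
  have n1 : α ≠ 0 := by
    intro h
    have := congrArg Fin.val h
    simp [α] at this
  have n2 : β ≠ 0 := by
    intro h
    have := congrArg Fin.val h
    simp [β] at this
  have n21 : β ≠ α := by
    intro h
    have := congrArg Fin.val h
    simp [α, β] at this
  obtain ⟨t, ht1, -⟩ := hG.dem (S := S1 α) (T := S1 β) (U := {some 0}) (by
    intro w hw
    have hw' : w = some 0 := hw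
    rw [hw']
    exact ⟨some α, rfl, some β, rfl, ac_ne n21.symm n1.symm n2.symm⟩) hxy
  exact no_rep hG (fun f hf => hcon (cc_of_code (by omega) hf)) n1 n2 n21 ht1

theorem cc_field (K : Type) [Field K] [Finite K] {m : ℕ} (h : Nat.card K = m) : CC m := by
  have e : Fin m ≃ K := (Finite.equivFinOfCardEq h).symm
  refine ⟨fun P k => e.symm ((finSuccEquiv m k).elim (e P.1) fun s => e P.2 - e s * e P.1), ?_⟩
  rintro ⟨x, y⟩ ⟨x', y'⟩ hne
  simp only [e.symm.injective.eq_iff]
  refine exUnique_transfer (fun k => k.elim (e x) (fun s => e y - e s * e x) =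
    k.elim (e x') (fun s => e y' - e s * e x')) ?_
  by_cases hx : x = x'
  · subst hx
    have hy : y ≠ y' := fun h1 => hne (by rw [h1])
    refine ⟨none, rfl, ?_⟩
    rintro (_ | s) hs
    · rfl
    · exfalso
      apply hy
      apply e.injective
      exact sub_left_injective hs
  · have hx' : e x - e x' ≠ 0 := fun h1 => hx (e.injective (sub_eq_zero.1 h1))
    refine ⟨some (e.symm ((e y - e y') / (e x - e x'))), ?_, ?_⟩
    · show e y - e _ * e x = e y' - e _ * e x'
      rw [Equiv.apply_symm_apply]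
      field_simp
      ring
    · rintro (_ | s) hs
      · exact absurd (e.injective hs) hx
      · have hs' : e y - e s * e x = e y' - e s * e x' := hs
        congr 1
        rw [Equiv.eq_symm_apply, eq_div_iff hx']
        linear_combination -hs'

theorem cc_small {m : ℕ} (h : m = 3 ∨ m = 4 ∨ m = 5 ∨ m = 7) : CC m := by
  rcases h with rfl | rfl | rfl | rfl
  · exact cc_field (ZMod 3) (by simp)
  · refine cc_field (GaloisField 2 2) ?_
    rw [GaloisField.card 2 2 (by norm_num)]
    norm_num
  · haveI : Fact (Nat.Prime 5) := ⟨by norm_num⟩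
    exact cc_field (ZMod 5) (by simp)
  · haveI : Fact (Nat.Prime 7) := ⟨by norm_num⟩
    exact cc_field (ZMod 7) (by simp)

end Pool.Agent.Y942.LY
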