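import Mathlib

/-! Affine planes of order `m` and words of length `m + 1` over `m` letters agreeing exactly once. -/

set_option autoImplicit false

namespace Pool.Agent.Y942.LY

/-- an affine plane of order `m` in coordinates -/
def CC (m : ℕ) : Prop :=
  ∃ G : (Fin m × Fin m) → Fin (m + 1) → Fin m, ∀ P Q, P ≠ Q → ∃! k, G P k = G Q k

/-- affine planes -/
structure AP (m : ℕ) (P : Type) (L : Set (Set P)) : Prop where
  points : Nat.card P = m ^ 2
  lines : ∀ l ∈ L, l.ncard = m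
  join : ∀ p q : P, p ≠ q → ∃! l, l ∈ L ∧ p ∈ l ∧ q ∈ l
  parallel : ∀ l ∈ L, ∀ p : P, p ∉ l → ∃! k, k ∈ L ∧ p ∈ k ∧ Disjoint k l

theorem card_fib {α β : Type} [Finite α] [Finite β] (g : α → β) (c : ℕ)
    (h : ∀ b, Nat.card {a // g a = b} = c) : Nat.card α = Nat.card β * c := by
  classical
  haveI := Fintype.ofFinite β
  rw [← Nat.card_congr (Equiv.sigmaFiberEquiv g), Nat.card_sigma]
  simp [h, Nat.card_eq_fintype_card]

section plane

variable {m : ℕ} {P : Type} {L : Set (Set P)}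

/-- equal or disjoint -/
def Par (k l : Set P) : Prop := k = l ∨ Disjoint k l

theorem Par.symm {k l : Set P} (h : Par k l) : Par l k := by
  rcases h with h | h
  · exact Or.inl h.symm
  · exact Or.inr h.symm

theorem par_ex (h : AP m P L) {l : Set P} (hl : l ∈ L) (p : P) :
    ∃! k, k ∈ L ∧ p ∈ k ∧ Par k l := by
  by_cases hp : p ∈ l
  · refine ⟨l, ⟨hl, hp, Or.inl rfl⟩, ?_⟩
    rintro k ⟨hk, hpk, rfl | hd⟩
    · rfl
    · exact absurd hp (Set.disjoint_left.1 hd hpk)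
  · obtain ⟨k, ⟨h1, h2, h3⟩, h4⟩ := h.parallel l hl p hp
    refine ⟨k, ⟨h1, h2, Or.inr h3⟩, ?_⟩
    rintro k' ⟨h5, h6, rfl | h7⟩
    · exact absurd h6 hp
    · exact h4 k' ⟨h5, h6, h7⟩

theorem cc_of_plane (hm : 2 ≤ m) (h : AP m P L) : CC m := by
  classical
  have hm2 : 0 < m ^ 2 := by positivity
  haveI : Finite P := Nat.finite_of_card_ne_zero (by rw [h.points]; omega)
  haveI : Nonempty P := (Nat.card_pos_iff.1 (by rw [h.points]; exact hm2)).1
  obtain ⟨o⟩ := ‹Nonempty P›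
  let D := {l : Set P // l ∈ L ∧ o ∈ l}
  have hD : Nat.card D = m + 1 := by
    have hj : ∀ p : {p : P // p ≠ o}, ∃ l : D, p.1 ∈ l.1 := fun p => by
      obtain ⟨l, ⟨h1, h2, h3⟩, -⟩ := h.join o p.1 p.2.symm
      exact ⟨⟨l, h1, h2⟩, h3⟩
    choose g hg using hj
    have hfib : ∀ d : D, Nat.card {a // g a = d} = m - 1 := by
      intro d
      have e : {a // g a = d} ≃ {p // p ∈ d.1 \ {o}} :=
        { toFun := fun a => ⟨a.1.1, Eq.mp (congrArg (fun d' : D => a.1.1 ∈ d'.1) a.2) (hg a.1), a.1.2⟩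
          invFun := fun p => ⟨⟨p.1, p.2.2⟩, Subtype.ext ((h.join o p.1 (Ne.symm p.2.2)).unique
            ⟨(g ⟨p.1, p.2.2⟩).2.1, (g ⟨p.1, p.2.2⟩).2.2, hg _⟩ ⟨d.2.1, d.2.2, p.2.1⟩)⟩
          left_inv := fun a => rfl
          right_inv := fun p => rfl }
      rw [Nat.card_congr e]
      have h1 : (d.1 \ {o}).ncard = d.1.ncard - 1 := Set.ncard_sdiff_singleton_of_mem d.2.2
      rw [h.lines d.1 d.2.1] at h1
      exact h1
    have h1 := card_fib g (m - 1) hfib
    have h2 : Nat.card {p : P // p ≠ o} = m ^ 2 - 1 := by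
      have h3 : ((Set.univ : Set P) \ {o}).ncard = (Set.univ : Set P).ncard - 1 :=
        Set.ncard_sdiff_singleton_of_mem (Set.mem_univ o)
      rw [Set.ncard_univ, h.points] at h3
      rw [← h3]
      refine Nat.card_congr (Equiv.subtypeEquivRight fun p => ?_)
      simp
    rw [h2] at h1
    have h4 : m ^ 2 - 1 = (m + 1) * (m - 1) := by
      obtain ⟨t, rfl⟩ : ∃ t, m = t + 1 := ⟨m - 1, by omega⟩
      rw [Nat.add_sub_cancel]
      have : (t + 1) ^ 2 = (t + 1 + 1) * t + 1 := by ring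
      omega
    rw [h4] at h1
    exact (Nat.eq_of_mul_eq_mul_right (by omega) h1).symm
  have hpar' : ∀ (d : D) (p : P), ∃ k, k ∈ L ∧ p ∈ k ∧ Par k d.1 := fun d p =>
    (par_ex h d.2.1 p).exists
  choose par hpar using hpar'
  let C : D → Type := fun d => {k : Set P // k ∈ L ∧ Par k d.1}
  have hC : ∀ d : D, Nat.card (C d) = m := by
    intro d
    let g : P → C d := fun p => ⟨par d p, (hpar d p).1, (hpar d p).2.2⟩
    have hfib : ∀ k : C d, Nat.card {p // g p = k} = m := by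
      intro k
      have e : {p // g p = k} ≃ {p // p ∈ k.1} := by
        refine Equiv.subtypeEquivRight fun p => ?_
        constructor
        · rintro rfl
          exact (hpar d p).2.1
        · intro hp
          exact Subtype.ext ((par_ex h d.2.1 p).unique (hpar d p) ⟨k.2.1, hp, k.2.2⟩)
      rw [Nat.card_congr e]
      exact h.lines k.1 k.2.1
    have h1 := card_fib g m hfib
    rw [h.points, pow_two] at h1
    exact (Nat.eq_of_mul_eq_mul_right (by omega) h1).symm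
  have hfC : ∀ d, Finite (C d) := fun d => inferInstanceAs (Finite {k : Set P // k ∈ L ∧ Par k d.1})
  have e1 : Fin m × Fin m ≃ P :=
    finProdFinEquiv.trans (Finite.equivFinOfCardEq (by rw [h.points, pow_two])).symm
  have e2 : Fin (m + 1) ≃ D := (Finite.equivFinOfCardEq hD).symm
  have e3 : ∀ d : D, C d ≃ Fin m := fun d => Finite.equivFinOfCardEq (hC d)
  refine ⟨fun x k => e3 (e2 k) ⟨par (e2 k) (e1 x), (hpar _ _).1, (hpar _ _).2.2⟩, ?_⟩
  intro x y hxy
  have hpq : e1 x ≠ e1 y := fun h1 => hxy (e1.injective h1)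
  have key : ∀ k, (e3 (e2 k) ⟨par (e2 k) (e1 x), (hpar _ _).1, (hpar _ _).2.2⟩ =
      e3 (e2 k) ⟨par (e2 k) (e1 y), (hpar _ _).1, (hpar _ _).2.2⟩) ↔
      par (e2 k) (e1 x) = par (e2 k) (e1 y) := by
    intro k
    rw [(e3 (e2 k)).injective.eq_iff, Subtype.mk.injEq]
  obtain ⟨l, ⟨hl, hl1, hl2⟩, hlu⟩ := h.join _ _ hpq
  obtain ⟨d, ⟨hd1, hd2, hd3⟩, hdu⟩ := par_ex h hl o
  refine ⟨e2.symm ⟨d, hd1, hd2⟩, ?_, ?_⟩
  · show e3 _ _ = e3 _ _
    rw [key, Equiv.apply_symm_apply]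
    have h1 := (par_ex h hd1 (e1 x)).unique (hpar ⟨d, hd1, hd2⟩ (e1 x)) ⟨hl, hl1, hd3.symm⟩
    have h2 := (par_ex h hd1 (e1 y)).unique (hpar ⟨d, hd1, hd2⟩ (e1 y)) ⟨hl, hl2, hd3.symm⟩
    rw [h1, h2]
  · intro k hk
    have hk' : par (e2 k) (e1 x) = par (e2 k) (e1 y) := (key k).1 hk
    have h1 := hpar (e2 k) (e1 x)
    have h2 := hpar (e2 k) (e1 y)
    rw [← hk'] at h2
    have h3 := hlu _ ⟨h1.1, h1.2.1, h2.2.1⟩
    have h4 := h1.2.2
    have h3' : par (e2 k) (e1 x) = l := h3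
    rw [h3'] at h4
    have h5 := hdu (e2 k).1 ⟨(e2 k).2.1, (e2 k).2.2, h4.symm⟩
    rw [Equiv.eq_symm_apply]
    exact Subtype.ext h5

end plane

/-! ### from words to planes and representations -/

section code

variable {m : ℕ} {G : (Fin m × Fin m) → Fin (m + 1) → Fin m}

/-- the property -/
def Cod (G : (Fin m × Fin m) → Fin (m + 1) → Fin m) : Prop := ∀ P Q, P ≠ Q → ∃! k, G P k = G Q k

theorem Cod.eq (hG : Cod G) {k l : Fin (m + 1)} (hkl : k ≠ l) {P Q : Fin m × Fin m}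
    (h1 : G P k = G Q k) (h2 : G P l = G Q l) : P = Q := by
  by_contra hne
  exact hkl ((hG P Q hne).unique h1 h2)

theorem Cod.ex (hG : Cod G) {k l : Fin (m + 1)} (hkl : k ≠ l) (v w : Fin m) :
    ∃ P, G P k = v ∧ G P l = w := by
  have hb : Function.Bijective (fun P : (Fin m × Fin m) => (G P k, G P l)) := by
    rw [Fintype.bijective_iff_injective_and_card]
    refine ⟨fun P Q hPQ => ?_, rfl⟩
    have := Prod.ext_iff.1 hPQ
    exact hG.eq hkl this.1 this.2
  obtain ⟨P, hP⟩ := hb.2 (v, w)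
  exact ⟨P, (Prod.ext_iff.1 hP).1, (Prod.ext_iff.1 hP).2⟩

/-- a point of the line `G · k = v` with a given value at `l` -/
theorem Cod.line_equiv (hG : Cod G) (hm : 1 ≤ m) (k : Fin (m + 1)) (v : Fin m) :
    {P | G P k = v}.ncard = m := by
  haveI : Nontrivial (Fin (m + 1)) := Fin.nontrivial_iff_two_le.mpr (by omega)
  obtain ⟨l, hl⟩ : ∃ l : Fin (m + 1), k ≠ l := (exists_ne k).imp fun _ h => h.symm
  choose φ hφ using fun w : Fin m => hG.ex hl v w
  have e : Fin m ≃ {P // P ∈ {P | G P k = v}} :=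
    { toFun := fun w => ⟨φ w, (hφ w).1⟩
      invFun := fun P => G P.1 l
      left_inv := fun w => (hφ w).2
      right_inv := fun P => Subtype.ext (hG.eq hl ((hφ _).1.trans P.2.symm) (hφ _).2) }
  have h1 := Nat.card_congr e
  rw [Nat.card_fin] at h1
  exact h1.symm

theorem plane_of_cod (hG : Cod G) (hm : 1 ≤ m) :
    AP m (Fin m × Fin m) {l | ∃ k v, l = {P | G P k = v}} where
  points := by simp [pow_two]
  lines := by
    rintro l ⟨k, v, rfl⟩
    exact hG.line_equiv hm k v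
  join := by
    intro p q hpq
    obtain ⟨k, hk, hku⟩ := hG p q hpq
    refine ⟨{P | G P k = G p k}, ⟨⟨k, _, rfl⟩, rfl, hk.symm⟩, ?_⟩
    rintro l ⟨⟨j, v, rfl⟩, h1, h2⟩
    have h1' : G p j = v := h1
    have h2' : G q j = v := h2
    have h3 := hku j (h1'.trans h2'.symm)
    subst h3
    subst h1'
    rfl
  parallel := by
    rintro l ⟨k, v, rfl⟩ p hp
    have hp' : G p k ≠ v := hp
    refine ⟨{P | G P k = G p k}, ⟨⟨k, _, rfl⟩, rfl, ?_⟩, ?_⟩
    · rw [Set.disjoint_left]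
      intro x h1 h2
      exact hp' ((show G x k = G p k from h1).symm.trans h2)
    · rintro l ⟨⟨j, w, rfl⟩, h1, h2⟩
      have h1' : G p j = w := h1
      by_cases hjk : j = k
      · subst hjk
        subst h1'
        rfl
      · obtain ⟨x, hx1, hx2⟩ := hG.ex hjk w v
        exact absurd (show x ∈ {P | G P k = v} from hx2)
          (Set.disjoint_left.1 h2 (show x ∈ {P | G P j = w} from hx1))

theorem plane_iff (hm : 2 ≤ m) : (∃ (P : Type) (L : Set (Set P)), AP m P L) ↔ CC m :=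
  ⟨fun ⟨_, _, h⟩ => cc_of_plane hm h, fun ⟨_, hG⟩ => ⟨_, _, plane_of_cod hG (by omega)⟩⟩

end code

end Pool.Agent.Y942.LY
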