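import Pool.Agent.Y942.LY.Plane
import Pool.Agent.W213.Ly.GenStm

/-! The representation of `L(m,0)` over an affine plane. -/

set_option autoImplicit false

namespace Pool.Agent.Y942.LY

open Pool.Agent.W213.Ly.Gen

section rep

variable {m : ℕ} {G : (Fin m × Fin m) → Fin (m + 1) → Fin m}

open Classical in
/-- the atom of a pair -/
noncomputable def lam (G : (Fin m × Fin m) → Fin (m + 1) → Fin m) (x y : Fin m × Fin m) : At m :=
  if x = y then none else
    if h : ∃ k, G x k = G y k then some h.choose else none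

theorem lam_none (hG : Cod G) {x y : Fin m × Fin m} : lam G x y = none ↔ x = y := by
  unfold lam
  by_cases h : x = y
  · simp [h]
  · have h1 := (hG x y h).exists
    rw [if_neg h, dif_pos h1]
    simp [h]

theorem lam_some (hG : Cod G) {x y : Fin m × Fin m} {c : Fin (m + 1)} :
    lam G x y = some c ↔ x ≠ y ∧ G x c = G y c := by
  unfold lam
  by_cases h : x = y
  · simp [h]
  · have h1 := (hG x y h).exists
    rw [if_neg h, dif_pos h1]
    constructor
    · intro h2
      have h3 := h1.choose_spec
      rw [Option.some.inj h2] at h3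
      exact ⟨h, h3⟩
    · rintro ⟨-, h2⟩
      rw [(hG x y h).unique h1.choose_spec h2]

theorem lam_symm (hG : Cod G) (x y : Fin m × Fin m) : lam G x y = lam G y x := by
  cases h : lam G y x with
  | none => exact (lam_none hG).2 ((lam_none hG).1 h).symm
  | some c =>
    obtain ⟨h1, h2⟩ := (lam_some hG).1 h
    exact (lam_some hG).2 ⟨h1.symm, h2.symm⟩

theorem third (hG : Cod G) (hm : 3 ≤ m) (c : Fin (m + 1)) (x y : Fin m × Fin m) :
    ∃ z, G z c = G x c ∧ z ≠ x ∧ z ≠ y := by
  have h1 := hG.line_equiv (by omega) c (G x c)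
  by_contra hcon
  push Not at hcon
  have h2 : {P | G P c = G x c} ⊆ {x, y} := by
    intro z hz
    by_cases hzx : z = x
    · exact Or.inl hzx
    · exact Or.inr (hcon z hz hzx)
  have h3 := Set.ncard_le_ncard h2 (Set.toFinite _)
  have h4 : ({x, y} : Set (Fin m × Fin m)).ncard ≤ 2 := Set.ncard_insert_le _ _ |>.trans (by simp)
  omega

theorem lam_comp (hG : Cod G) (hm : 3 ≤ m) (a b : At m) (x y : Fin m × Fin m) :
    AC a b (lam G x y) ↔ ∃ z, lam G x z = a ∧ lam G z y = b := by
  cases a with
  | none =>
    constructor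
    · intro h
      exact ⟨x, (lam_none hG).2 rfl, h⟩
    · rintro ⟨z, h1, h2⟩
      rw [(lam_none hG).1 h1]
      exact h2
  | some i =>
    cases b with
    | none =>
      constructor
      · intro h
        exact ⟨y, h, (lam_none hG).2 rfl⟩
      · rintro ⟨z, h1, h2⟩
        rw [← (lam_none hG).1 h2]
        exact h1
    | some j =>
      by_cases hij : i = j
      · subst hij
        simp only [AC, if_true, lam_none hG, lam_some hG]
        constructor
        · intro h
          obtain ⟨z, h1, h2, h3⟩ := third hG hm i x y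
          refine ⟨z, ⟨h2.symm, h1.symm⟩, h3, ?_⟩
          rcases h with h | h
          · rw [← h]; exact h1
          · rw [← h.2]; exact h1
        · rintro ⟨z, ⟨h1, h2⟩, h3, h4⟩
          by_cases hxy : x = y
          · exact Or.inl hxy
          · exact Or.inr ⟨hxy, h2.trans h4⟩
      · simp only [AC, if_neg hij, lam_none hG, lam_some hG, ne_eq]
        constructor
        · rintro ⟨h1, h2, h3⟩
          obtain ⟨z, hz1, hz2⟩ := hG.ex hij (G x i) (G y j)
          refine ⟨z, ⟨?_, hz1.symm⟩, ?_, hz2⟩
          · rintro rfl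
            exact h3 ⟨h1, hz2⟩
          · rintro rfl
            exact h2 ⟨h1, hz1.symm⟩
        · rintro ⟨z, ⟨h1, h2⟩, h3, h4⟩
          refine ⟨?_, ?_, ?_⟩
          · rintro rfl
            exact h1 (hG.eq hij h2 h4.symm)
          · rintro ⟨-, h5⟩
            exact h3 (hG.eq hij (h2.symm.trans h5) h4)
          · rintro ⟨-, h5⟩
            exact h1 (hG.eq hij h2 (h5.trans h4.symm))

theorem lam_surj (hG : Cod G) (hm : 3 ≤ m) (a : At m) : ∃ x y, lam G x y = a := by
  haveI : NeZero m := ⟨by omega⟩
  cases a with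
  | none => exact ⟨(0, 0), (0, 0), (lam_none hG).2 rfl⟩
  | some i =>
    obtain ⟨z, h1, h2, -⟩ := third hG hm i (0, 0) (0, 0)
    exact ⟨(0, 0), z, (lam_some hG).2 ⟨h2.symm, h1.symm⟩⟩

end rep

end Pool.Agent.Y942.LY
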